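import Pool.Agent.Helper53.PT.GoalsC
import Pool.Agent.Helper53.PT.A
import Pool.Agent.Helper53.PT.B

/-!
# MP_705522_gt, `q ∈ (2,4)`: packet PT-KAV (lower bounds of the slopes of `rr`)
-/

namespace Pool.Agent.Helper58.PT

open MeasureTheory Set Filter Topology
open Pool.Agent.Helper53.PT

theorem mn_eq (a b : ℕ) : N.mn a b = min a b := by
  unfold N.mn
  cases h : Nat.ble a b
  · have h' : ¬ a ≤ b := by
      intro hc
      rw [← Nat.ble_eq] at hc
      rw [hc] at h
      exact absurd h (by decide)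
    simp only [cond_false]
    omega
  · have h' : a ≤ b := by rwa [Nat.ble_eq] at h
    simp only [cond_true]
    omega

theorem mx_eq (a b : ℕ) : N.mx a b = max a b := by
  unfold N.mx
  cases h : Nat.ble a b
  · have h' : ¬ a ≤ b := by
      intro hc
      rw [← Nat.ble_eq] at hc
      rw [hc] at h
      exact absurd h (by decide)
    simp only [cond_false]
    omega
  · have h' : a ≤ b := by rwa [Nat.ble_eq] at h
    simp only [cond_true]
    omega

theorem shl_eq (a b : ℕ) : Nat.shiftLeft a b = a * 2 ^ b := Nat.shiftLeft_eq a b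
theorem shr_eq (a b : ℕ) : Nat.shiftRight a b = a / 2 ^ b := Nat.shiftRight_eq_div_pow a b

theorem pp_eq (v : ℕ) : N.pp v = v - 1099511627776 := rfl

theorem rhoF_eq (hF : GFLD) (B : N.Base) (k : ℕ) : N.rhoF B k = min 17179869184000
    ((min (N.pp (N.fld (N.tW B) k)) (N.pp (N.fld (N.tW B) (k + 1)) *
      (1099511627776 + N.rLo B k * 2 ^ N.shf k / 2 ^ 26) / 2 ^ 40) -
      (N.wSl B k * (1099511627777 + N.rLo B k * 2 ^ N.shf k / 2 ^ 26) / 2 ^ 40 + 1)) * 2 ^ 76 /
      (N.pp (N.fld (N.tPU B) k) * N.pp (N.fld (N.tPU B) k))) := by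
  have hf := hF.2.2.2.2.2.2
  unfold N.rhoF
  rw [hf, hf, hf]
  simp only [mn_eq, shl_eq, shr_eq]
  rfl

theorem rLo_eq (B : N.Base) (k : ℕ) : N.rLo B k = max 1099511627776
    (N.pp (N.fld (N.tSL B) k) * 2 ^ 40 / N.pp (N.fld (N.tPU B) k)) := by
  unfold N.rLo
  simp only [mx_eq, shl_eq]
  rfl

theorem xR_nonneg (k : ℕ) : 0 ≤ xR k := by
  unfold xR aR
  positivity

theorem aR_le {x y : ℕ} (h : x ≤ y) : aR x ≤ aR y := by
  unfold aR
  have : (x : ℝ) ≤ y := by exact_mod_cast h
  gcongr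

theorem le_of_aR {x y : ℕ} (h : aR x ≤ aR y) : x ≤ y := by
  unfold aR at h
  rw [div_le_div_iff_of_pos_right (by positivity)] at h
  exact_mod_cast h

theorem lt_of_aR {x y : ℕ} (h : aR x < aR y) : x < y := by
  unfold aR at h
  rw [div_lt_div_iff_of_pos_right (by positivity)] at h
  exact_mod_cast h

theorem xgN_le (hG : GGRID) {j k : ℕ} (h : j ≤ k) (hk : k ≤ 1152) : N.xgN j ≤ N.xgN k := by
  rcases h.eq_or_lt with rfl | h
  · exact le_rfl
  · exact (hG.2.2.2.1 j k h hk).le

theorem xR_le (hG : GGRID) {j k : ℕ} (h : j ≤ k) (hk : k ≤ 1152) : xR j ≤ xR k :=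
  aR_le (xgN_le hG h hk)

theorem xR_succ (hG : GGRID) {k : ℕ} (hk : k < 1152) : xR (k + 1) = xR k + 2 ^ N.shf k / 2 ^ 26 := by
  unfold xR aR
  rw [(hG.2.2.1 k hk).1]
  push_cast
  ring

theorem vR_sub (v : ℕ) : vR v - 1 ≤ vR (N.pp v) := by
  have h0 : v ≤ N.pp v + 1099511627776 := by
    rw [pp_eq]
    omega
  generalize N.pp v = u at h0
  have h : (v : ℝ) ≤ (u : ℝ) + 1099511627776 := by exact_mod_cast h0
  unfold vR
  rw [sub_le_iff_le_add, div_add_one (by positivity), div_le_div_iff_of_pos_right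
    (by positivity)]
  refine h.trans (le_of_eq ?_)
  norm_num

theorem vR_sub_of_le {v : ℕ} {t : ℝ} (h : vR v - 1 ≤ t) (ht : 0 ≤ t) : vR (N.pp v) ≤ t := by
  rcases le_total v 1099511627776 with hv | hv
  · have : N.pp v = 0 := by rw [pp_eq]; omega
    rw [this]
    unfold vR
    simpa using ht
  · have e : vR (N.pp v) = vR v - 1 := by
      unfold vR
      rw [pp_eq, Nat.cast_sub hv]
      norm_num
      ring
    rw [e]
    exact h

theorem vR_nonneg (v : ℕ) : 0 ≤ vR v := by unfold vR; positivity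

section
variable {A : ℕ} {B : N.Base} {I : N.Ix} {θ z : ℝ}

theorem f0_pos (H : TH A B I θ z) {x : ℝ} (h0 : 0 ≤ x) (h1 : x < z) : 0 < f0 θ x :=
  (bRL θ z _ _ _ _ H.fa).2.1 x h0 h1

theorem le_rr (hG : GGRID) (H : TH A B I θ z) {k : ℕ} (hk : k ≤ I.kz) :
    vR (N.rLo B k) ≤ rr θ (xR k) := by
  have h7 := H.ix.z7
  have h0 := H.fa.th0
  have h1 := H.fa.th1
  have hxz : xR k < z := lt_of_le_of_lt (xR_le hG hk (by omega)) H.zl
  have hp := f0_pos H (xR_nonneg k) hxz
  have hf1 : 0 < f1 θ (xR k) := H.fa.s1 _ (xR_nonneg k) (hxz.trans H.fa.zm)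
  have hle : f0 θ (xR k) ≤ f1 θ (xR k) := by
    rcases (xR_nonneg k).eq_or_lt with he | hlt
    · rw [← he, f0_zero (by linarith) (by linarith), f1_zero (by linarith) (by linarith)]
    · exact ((bRL θ z _ _ _ _ H.fa).2.2.2.1 _ hlt (hxz.le.trans H.fa.zD)).le
  have hone : 1 ≤ rr θ (xR k) := by
    unfold rr
    rw [le_div_iff₀ hp]
    linarith
  rw [rLo_eq]
  have hvmax : ∀ a b : ℕ, vR a ≤ rr θ (xR k) → vR b ≤ rr θ (xR k) →
      vR (max a b) ≤ rr θ (xR k) := by
    intro a b ha hb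
    rcases le_total a b with h | h
    · rwa [max_eq_right h]
    · rwa [max_eq_left h]
  refine hvmax _ _ ?_ ?_
  · have : vR 1099511627776 = 1 := by unfold vR; norm_num
    rw [this]
    exact hone
  · have ha : vR (N.pp (N.fld (N.tSL B) k)) ≤ f1 θ (xR k) :=
      vR_sub_of_le (H.tb.sl k (by omega)) hf1.le
    have hb : f0 θ (xR k) ≤ vR (N.pp (N.fld (N.tPU B) k)) :=
      (H.tb.pu k (by omega)).trans (vR_sub _)
    generalize N.pp (N.fld (N.tSL B) k) = a at ha
    generalize N.pp (N.fld (N.tPU B) k) = b at hb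
    have hb0 : 0 < vR b := lt_of_lt_of_le hp hb
    have hbn : (0 : ℝ) < b := by
      unfold vR at hb0
      by_contra hc
      have : (b : ℝ) = 0 := le_antisymm (not_lt.mp hc) (Nat.cast_nonneg b)
      rw [this] at hb0
      simp at hb0
    have h2 : ((a * 2 ^ 40 / b : ℕ) : ℝ) * b ≤ a * 2 ^ 40 := by
      exact_mod_cast Nat.div_mul_le_self (a * 2 ^ 40) b
    have h3 : vR (a * 2 ^ 40 / b) ≤ vR a / vR b := by
      have e : vR a / vR b = (a : ℝ) / b := by
        unfold vR
        field_simp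
      rw [e, le_div_iff₀ hbn]
      unfold vR
      rw [div_mul_eq_mul_div, div_le_iff₀ (by positivity)]
      exact h2
    refine h3.trans ?_
    unfold rr
    rw [div_le_div_iff₀ hb0 hp]
    calc vR a * f0 θ (xR k) ≤ f1 θ (xR k) * f0 θ (xR k) :=
          mul_le_mul_of_nonneg_right ha hp.le
      _ ≤ f1 θ (xR k) * vR b := mul_le_mul_of_nonneg_left hb hf1.le

theorem rho_cell (hF : GFLD) (hG : GGRID) (H : TH A B I θ z) {k : ℕ} (hk : k < I.kz) :
    ∀ y, xR k ≤ y → y ≤ xR (k + 1) → (N.rhoF B k : ℝ) / 2 ^ 36 ≤ Wf θ y / f0 θ y ^ 2 := by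
  intro y hy0 hy1
  have h7 := H.ix.z7
  have hzR := H.ix.kzR
  have hRW := H.ix.RW
  have h0 := H.fa.th0
  have h1 := H.fa.th1
  have hxz : xR (k + 1) < z := lt_of_le_of_lt (xR_le hG (by omega) (by omega)) H.zl
  have hWpos : ∀ x, 0 ≤ x → x < z → 0 < Wf θ x := fun x hx hxz =>
    H.fa.W x hx (hxz.le.trans H.fa.zW)
  have hk1 : xR k ≤ xR (k + 1) := xR_le hG (by omega) (by omega)
  have hbase : (0 : ℝ) ≤ Wf θ y / f0 θ y ^ 2 :=
    div_nonneg (hWpos y ((xR_nonneg k).trans hy0) (lt_of_le_of_lt hy1 hxz)).le (sq_nonneg _)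
  have hrr := le_rr hG H hk.le
  have hW0 : vR (N.pp (N.fld (N.tW B) k)) ≤ Wf θ (xR k) :=
    vR_sub_of_le (H.ch.w0 k (by omega)) (hWpos _ (xR_nonneg k) (lt_of_le_of_lt hk1 hxz)).le
  have hW1 : vR (N.pp (N.fld (N.tW B) (k + 1))) ≤ Wf θ (xR (k + 1)) :=
    vR_sub_of_le (H.ch.w0 (k + 1) (by omega)) (hWpos _ (xR_nonneg _) hxz).le
  have hpu : f0 θ (xR k) ≤ vR (N.pp (N.fld (N.tPU B) k)) :=
    (H.tb.pu k (by omega)).trans (vR_sub _)
  obtain ⟨S, F, hS, hFb, hSF⟩ := H.ch.wS k (by omega)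
  have hxs := xR_succ hG (k := k) (by omega)
  rw [rhoF_eq hF]
  generalize N.pp (N.fld (N.tW B) k) = a at hW0
  generalize N.pp (N.fld (N.tW B) (k + 1)) = a' at hW1
  generalize N.pp (N.fld (N.tPU B) k) = p at hpu
  generalize N.wSl B k = w at hSF
  generalize N.rLo B k = r at hrr
  generalize N.shf k = s at hxs
  generalize hX : min a (a' * (1099511627776 + r * 2 ^ s / 2 ^ 26) / 2 ^ 40) -
      (w * (1099511627777 + r * 2 ^ s / 2 ^ 26) / 2 ^ 40 + 1) = X
  have hρ : ((min 17179869184000 (X * 2 ^ 76 / (p * p)) : ℕ) : ℝ) ≤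
      ((X * 2 ^ 76 / (p * p) : ℕ) : ℝ) := by
    exact_mod_cast min_le_right _ _
  refine le_trans (div_le_div_of_nonneg_right hρ (by positivity)) ?_
  rcases Nat.eq_zero_or_pos X with hX0 | hX0
  · rw [hX0]
    simpa using hbase
  · generalize hrh : r * 2 ^ s / 2 ^ 26 = rh at hX
    have hrh1 : (rh : ℝ) ≤ (r : ℝ) * 2 ^ s / 2 ^ 26 := by
      rw [le_div_iff₀ (by positivity), ← hrh]
      exact_mod_cast Nat.div_mul_le_self (r * 2 ^ s) (2 ^ 26)
    have hrh2 : (r : ℝ) * 2 ^ s / 2 ^ 26 ≤ rh + 1 := by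
      rw [div_le_iff₀ (by positivity), ← hrh]
      have h' : r * 2 ^ s ≤ (r * 2 ^ s / 2 ^ 26 + 1) * 2 ^ 26 := by
        generalize r * 2 ^ s = t
        omega
      exact_mod_cast h'
    set h : ℝ := 2 ^ s / 2 ^ 26 with hh
    have hhp : 0 < h := by positivity
    have hdiff : xR (k + 1) - xR k = h := by rw [hxs]; ring
    have hR1 : vR rh ≤ vR r * h := by
      unfold vR
      rw [div_mul_eq_mul_div]
      refine div_le_div_of_nonneg_right ?_ (by positivity)
      rw [hh]
      rw [mul_div_assoc] at hrh1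
      exact hrh1
    have hR2 : vR r * h ≤ vR (rh + 1) := by
      unfold vR
      rw [div_mul_eq_mul_div]
      refine div_le_div_of_nonneg_right ?_ (by positivity)
      rw [hh]
      rw [mul_div_assoc] at hrh2
      push_cast
      exact hrh2
    have hXr : (X : ℝ) = (min a (a' * (1099511627776 + rh) / 2 ^ 40) : ℕ) -
        ((w * (1099511627777 + rh) / 2 ^ 40 + 1 : ℕ) : ℝ) := by
      rw [← hX, Nat.cast_sub (by omega)]
    have hmin : vR (min a (a' * (1099511627776 + rh) / 2 ^ 40)) ≤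
        min (vR a) (vR a' * (1 + vR r * h)) := by
      refine le_min ?_ ?_
      · unfold vR
        refine div_le_div_of_nonneg_right ?_ (by positivity)
        exact_mod_cast min_le_left _ _
      · have e1 : vR (min a (a' * (1099511627776 + rh) / 2 ^ 40)) ≤
            vR (a' * (1099511627776 + rh) / 2 ^ 40) := by
          unfold vR
          refine div_le_div_of_nonneg_right ?_ (by positivity)
          exact_mod_cast min_le_right _ _
        have e2 : ((a' * (1099511627776 + rh) / 2 ^ 40 : ℕ) : ℝ) * 2 ^ 40 ≤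
            (a' : ℝ) * (1099511627776 + rh) := by
          exact_mod_cast Nat.div_mul_le_self (a' * (1099511627776 + rh)) (2 ^ 40)
        have e3 : vR (a' * (1099511627776 + rh) / 2 ^ 40) ≤ vR a' * (1 + vR rh) := by
          have e4 : vR a' * (1 + vR rh) = (a' : ℝ) * (1099511627776 + rh) / 2 ^ 40 / 2 ^ 40 := by
            unfold vR
            norm_num
            ring
          rw [e4]
          unfold vR
          refine div_le_div_of_nonneg_right ?_ (by positivity)
          rw [le_div_iff₀ (by positivity)]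
          exact e2
        refine (e1.trans e3).trans ?_
        exact mul_le_mul_of_nonneg_left (by linarith) (vR_nonneg a')
    have hc : vR w * (1 + vR r * h) ≤ vR (w * (1099511627777 + rh) / 2 ^ 40 + 1) := by
      have e1 : vR w * (1 + vR r * h) ≤ vR w * (1 + vR (rh + 1)) :=
        mul_le_mul_of_nonneg_left (by linarith) (vR_nonneg w)
      refine e1.trans ?_
      have e2 : (w : ℝ) * (1099511627777 + rh) ≤
          ((w * (1099511627777 + rh) / 2 ^ 40 + 1 : ℕ) : ℝ) * 2 ^ 40 := by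
        have h' : w * (1099511627777 + rh) ≤
            (w * (1099511627777 + rh) / 2 ^ 40 + 1) * 2 ^ 40 := by
          generalize w * (1099511627777 + rh) = t
          omega
        exact_mod_cast h'
      have e4 : vR w * (1 + vR (rh + 1)) = (w : ℝ) * (1099511627777 + rh) / 2 ^ 40 / 2 ^ 40 := by
        unfold vR
        push_cast
        norm_num
        ring
      rw [e4]
      unfold vR
      refine div_le_div_of_nonneg_right ?_ (by positivity)
      rw [div_le_iff₀ (by positivity)]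
      exact e2
    have hppos : 0 < vR p :=
      lt_of_lt_of_le (f0_pos H (xR_nonneg k) (lt_of_le_of_lt hk1 hxz)) hpu
    have hρ2 : ((X * 2 ^ 76 / (p * p) : ℕ) : ℝ) / 2 ^ 36 * vR p ^ 2 ≤ vR X := by
      have e1 : ((X * 2 ^ 76 / (p * p) : ℕ) : ℝ) * (p * p) ≤ X * 2 ^ 76 := by
        exact_mod_cast Nat.div_mul_le_self (X * 2 ^ 76) (p * p)
      unfold vR
      rw [div_pow, div_mul_div_comm, div_le_div_iff₀ (by positivity) (by positivity)]
      have e2 : ((X * 2 ^ 76 / (p * p) : ℕ) : ℝ) * (p : ℝ) ^ 2 ≤ X * 2 ^ 76 := by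
        rw [sq]; exact e1
      calc ((X * 2 ^ 76 / (p * p) : ℕ) : ℝ) * (p : ℝ) ^ 2 * 2 ^ 40
          ≤ (X * 2 ^ 76) * 2 ^ 40 := mul_le_mul_of_nonneg_right e2 (by positivity)
        _ = (X : ℝ) * (2 ^ 36 * (2 ^ 40) ^ 2) := by ring
    have hvX : vR X = vR (min a (a' * (1099511627776 + rh) / 2 ^ 40)) -
        vR (w * (1099511627777 + rh) / 2 ^ 40 + 1) := by
      unfold vR
      rw [hXr]
      ring
    have hrn : 0 ≤ vR r * h := mul_nonneg (vR_nonneg r) hhp.le
    rw [hdiff] at hSF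
    have hfin : ((X * 2 ^ 76 / (p * p) : ℕ) : ℝ) / 2 ^ 36 * vR p ^ 2 ≤
        min (vR a) (vR a' * (1 + vR r * h)) -
          h ^ 2 / 8 * (S ^ 2 / 2 + F * (mo θ 4 / 840)) * (1 + vR r * h) := by
      have e1 : h ^ 2 / 8 * (S ^ 2 / 2 + F * (mo θ 4 / 840)) * (1 + vR r * h) ≤
          vR w * (1 + vR r * h) := mul_le_mul_of_nonneg_right hSF (by linarith)
      linarith
    have hx1 : xR k + h = xR (k + 1) := by rw [← hdiff]; ring
    refine bRHO bCH bRL θ z _ _ _ _ H.fa (xR k) h S F (vR a) (vR a') (vR r) (vR p) _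
      (xR_nonneg k) hhp (by rw [hx1]; exact hxz) ?_ ?_ (vR_nonneg a) hW0 (by rw [hx1]; exact hW1)
      (vR_nonneg r) hrr hpu hfin y hy0 (by rw [hx1]; exact hy1)
    · intro y' h1 h2
      exact hS y' h1 (by rw [← hx1]; exact h2)
    · intro y' h1 h2
      exact hFb y' h1 (by rw [← hx1]; exact h2)

/-! ### the tables -/

theorem rhoF_le (hF : GFLD) (B : N.Base) (k : ℕ) : N.rhoF B k ≤ 17179869184000 := by
  rw [rhoF_eq hF]
  exact min_le_left _ _

theorem tRH_rec (hF : GFLD) (B : N.Base) (n : ℕ) : ∀ k < n,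
    N.fld (N.tRH B n) k = min (N.fld (N.tRH B n) (k + 1)) (N.rhoF B k) :=
  (hF.2.2.1 (N.rhoF B) 17179869184000 n (by norm_num)
    (fun j _ => lt_of_le_of_lt (rhoF_le hF B j) (by norm_num))).2

theorem tRH_le (hF : GFLD) (B : N.Base) (n : ℕ) {k : ℕ} (hk : k < n) :
    N.fld (N.tRH B n) k ≤ N.rhoF B k := by
  rw [tRH_rec hF B n k hk]
  exact min_le_right _ _

theorem tRH_mono (hF : GFLD) (B : N.Base) (n : ℕ) {k : ℕ} (hk : k < n) :
    N.fld (N.tRH B n) k ≤ N.fld (N.tRH B n) (k + 1) := by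
  rw [tRH_rec hF B n k hk]
  exact min_le_left _ _

theorem sum_shf (hG : GGRID) (n : ℕ) (hn : n ≤ 1152) :
    ∑ j ∈ Finset.range n, 2 ^ N.shf j = N.xgN n := by
  induction n with
  | zero => simp [hG.1]
  | succ n ih =>
    rw [Finset.sum_range_succ, ih (by omega), (hG.2.2.1 n (by omega)).1]

theorem tRI_eq (hF : GFLD) (hG : GGRID) (B : N.Base) {n : ℕ} (hn : n ≤ 736) : ∀ k ≤ n,
    N.fld6 (N.tRI B n) k = ∑ j ∈ Finset.range k, N.fld (N.tRH B n) j * 2 ^ (N.shf j - 17) := by
  have h1 : ∀ j ∈ Finset.range n, N.fld (N.tRH B n) j * 2 ^ (N.shf j - 17) * 2 ^ 17 ≤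
      17179869184000 * 2 ^ N.shf j := by
    intro j hj
    have hj' := Finset.mem_range.mp hj
    have hs := (hG.2.2.1 j (by omega)).2.1
    have e : 2 ^ (N.shf j - 17) * 2 ^ 17 = 2 ^ N.shf j := by
      rw [← pow_add]
      congr 1
      omega
    rw [mul_assoc, e]
    exact Nat.mul_le_mul_right _ ((tRH_le hF B n hj').trans (rhoF_le hF B j))
  have h2 : (∑ j ∈ Finset.range n, N.fld (N.tRH B n) j * 2 ^ (N.shf j - 17)) * 2 ^ 17 ≤
      17179869184000 * 2 ^ 29 := by
    rw [Finset.sum_mul]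
    refine (Finset.sum_le_sum h1).trans ?_
    rw [← Finset.mul_sum, sum_shf hG n (by omega)]
    refine Nat.mul_le_mul_left _ ((xgN_le hG hn (by norm_num)).trans ?_)
    have : N.xgN 736 = 2 ^ 29 := by decide
    rw [this]
  have h3 : (∑ j ∈ Finset.range n, Nat.shiftLeft (N.fld (N.tRH B n) j) (Nat.sub (N.shf j) 17)) <
      2 ^ 56 := by
    have e : (∑ j ∈ Finset.range n, Nat.shiftLeft (N.fld (N.tRH B n) j)
        (Nat.sub (N.shf j) 17)) =
        ∑ j ∈ Finset.range n, N.fld (N.tRH B n) j * 2 ^ (N.shf j - 17) :=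
      Finset.sum_congr rfl fun j _ => shl_eq _ _
    rw [e]
    generalize (∑ j ∈ Finset.range n, N.fld (N.tRH B n) j * 2 ^ (N.shf j - 17)) = t at h2
    norm_num at h2 ⊢
    omega
  have h : ∀ k ≤ n, N.fld6 (N.tRI B n) k =
      ∑ j ∈ Finset.range k, Nat.shiftLeft (N.fld (N.tRH B n) j) (Nat.sub (N.shf j) 17) :=
    hF.2.2.2.1 (fun k => Nat.shiftLeft (N.fld (N.tRH B n) k) (Nat.sub (N.shf k) 17)) n h3
  intro k hk
  rw [h k hk]
  exact Finset.sum_congr rfl fun j _ => shl_eq _ _

end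

theorem gKAV : GKAV := by
  intro hF hG A B I θ z H
  have h7 := H.ix.z7
  have h100 := H.ix.z1
  set ρ : ℕ → ℝ := fun k => (N.fld (N.tRH B I.kz) k : ℝ) / 2 ^ 36 with hρd
  set J : ℕ → ℝ := fun k => (N.fld6 (N.tRI B I.kz) k : ℝ) / 2 ^ 45 with hJd
  have hx0 : xR 0 = 0 := by unfold xR aR; rw [hG.1]; simp
  have hJ0 : J 0 = 0 := by
    simp only [hJd]
    rw [tRI_eq hF hG B h7 0 (by omega)]
    simp
  have hJs : ∀ k < I.kz, J (k + 1) = J k + (xR (k + 1) - xR k) * ρ k := by
    intro k hk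
    simp only [hJd, hρd]
    rw [tRI_eq hF hG B h7 (k + 1) (by omega), tRI_eq hF hG B h7 k (by omega),
      Finset.sum_range_succ, xR_succ hG (by omega : k < 1152)]
    have hs := (hG.2.2.1 k (by omega)).2.1
    have e : (2 : ℝ) ^ N.shf k = 2 ^ (N.shf k - 17) * 2 ^ 17 := by
      rw [← pow_add]
      congr 1
      omega
    rw [e]
    push_cast
    ring
  have hρm : ∀ k, k + 1 < I.kz → ρ k ≤ ρ (k + 1) := by
    intro k hk
    simp only [hρd]
    refine div_le_div_of_nonneg_right ?_ (by positivity)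
    exact_mod_cast tRH_mono hF B I.kz (by omega)
  have hρc : ∀ k < I.kz, ∀ y, xR k ≤ y → y < xR (k + 1) → ρ k ≤ Wf θ y / f0 θ y ^ 2 := by
    intro k hk y h1 h2
    refine le_trans ?_ (rho_cell hF hG H hk y h1 h2.le)
    simp only [hρd]
    refine div_le_div_of_nonneg_right ?_ (by positivity)
    exact_mod_cast tRH_le hF B I.kz hk
  obtain ⟨R, hRc, hRv, hRm, hRρ⟩ := bRG bRL θ z _ _ _ _ H.fa I.kz xR ρ J hx0
    (fun k hk => by
      rw [xR_succ hG (by omega : k < 1152)]
      have : (0 : ℝ) < 2 ^ N.shf k / 2 ^ 26 := by positivity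
      linarith) H.zl (by omega) hρm hJ0 hJs hρc
  -- the values of `R`
  have hval : ∀ x0 : ℕ, x0 ≤ N.xgN I.kz →
      (N.rV (N.mkTab B I) x0 : ℝ) = 2 ^ 62 * R (aR x0) := by
    intro x0 hx
    have hlt : x0 < 2 ^ 32 := by
      have h1 := xgN_le hG h7 (by norm_num : 736 ≤ 1152)
      have h2 : N.xgN 736 = 2 ^ 29 := by decide
      rw [h2] at h1
      norm_num at h1 ⊢
      omega
    obtain ⟨k, d, hk, hd, hxd, hidx, hcell⟩ := hG.2.2.2.2.1 x0 hlt
    have hrV : N.rV (N.mkTab B I) x0 =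
        N.fld6 (N.tRI B I.kz) k * 2 ^ 17 + d * N.fld (N.tRH B I.kz) k := by
      unfold N.rV
      rw [hcell]
      simp only [shl_eq]
      rfl
    have haR : aR x0 = xR k + (d : ℝ) / 2 ^ 26 := by
      unfold xR aR
      rw [hxd]
      push_cast
      ring
    rw [hrV]
    rcases Nat.lt_or_ge k I.kz with hkz | hkz
    · have hd' : (d : ℝ) ≤ 2 ^ N.shf k := by exact_mod_cast hd.le
      rw [hRv k hkz (aR x0) (by rw [haR]; have : (0 : ℝ) ≤ d / 2 ^ 26 := by positivity
                                linarith)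
        (by rw [haR, xR_succ hG (by omega : k < 1152)]
            have : (d : ℝ) / 2 ^ 26 ≤ 2 ^ N.shf k / 2 ^ 26 :=
              div_le_div_of_nonneg_right hd' (by positivity)
            linarith), haR]
      simp only [hJd, hρd]
      push_cast
      ring
    · have h1 : N.xgN I.kz ≤ N.xgN k := xgN_le hG hkz (by omega)
      have hd0 : d = 0 := by omega
      have hkk : k = I.kz := by
        by_contra hne
        have := hG.2.2.2.1 I.kz k (by omega) (by omega)
        omega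
      subst hd0
      rw [hkk] at haR ⊢
      have hkz1 : I.kz - 1 + 1 = I.kz := by omega
      have h2 := hRv (I.kz - 1) (by omega) (aR x0)
        (by rw [haR]; have := xR_le hG (show I.kz - 1 ≤ I.kz by omega) (by omega); simpa using this)
        (by rw [haR, hkz1]; simp)
      have h3 := hJs (I.kz - 1) (by omega)
      rw [hkz1] at h3
      have h4 : R (aR x0) = J I.kz := by
        rw [h2, h3, haR]
        simp
      rw [h4]
      simp only [hJd]
      push_cast
      ring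
  constructor
  · intro x0 y0 x y hx0x hy0y hyx hxk
    have hx0k : x0 ≤ N.xgN I.kz := le_of_aR (hx0x.trans hxk)
    have hy0k : y0 < N.xgN I.kz := lt_of_aR (lt_of_le_of_lt hy0y (lt_of_lt_of_le hyx hxk))
    have hlt : y0 < 2 ^ 32 := by
      have h1 := xgN_le hG h7 (by norm_num : 736 ≤ 1152)
      have h2 : N.xgN 736 = 2 ^ 29 := by decide
      rw [h2] at h1
      norm_num at h1 ⊢
      omega
    obtain ⟨k, d, hk, hd, hxd, hidx, -⟩ := hG.2.2.2.2.1 y0 hlt
    have hkz : k < I.kz := by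
      by_contra hc
      have := xgN_le hG (not_lt.mp hc) hk.le
      omega
    have hy0' : xR k ≤ y := by
      refine le_trans ?_ hy0y
      unfold xR
      exact aR_le (by omega)
    have hyn : 0 ≤ y := (xR_nonneg k).trans hy0'
    have hA := hRρ k hkz y x hy0' hyx.le hxk
    have hρn : 0 ≤ ρ k := by simp only [hρd]; positivity
    have hnn : 0 ≤ rr θ x - rr θ y := le_trans (mul_nonneg hρn (by linarith)) hA
    have hdef : N.kAv (N.mkTab B I) x0 y0 = max (N.fld (N.tRH B I.kz) k)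
        (cond (Nat.ble x0 y0) 0 ((N.rV (N.mkTab B I) x0 - N.rV (N.mkTab B I) y0) / (x0 - y0))) := by
      unfold N.kAv
      rw [mx_eq, mn_eq, hidx]
      have e : min k (Nat.sub (N.mkTab B I).I.kz 1) = k := by
        have : k ≤ Nat.sub (N.mkTab B I).I.kz 1 := by
          show k ≤ I.kz - 1
          omega
        exact min_eq_left this
      rw [e]
      rfl
    rw [hdef]
    have hmax : ∀ a b : ℕ, (a : ℝ) / 2 ^ 36 * (x - y) ≤ rr θ x - rr θ y →
        (b : ℝ) / 2 ^ 36 * (x - y) ≤ rr θ x - rr θ y →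
        ((max a b : ℕ) : ℝ) / 2 ^ 36 * (x - y) ≤ rr θ x - rr θ y := by
      intro a b ha hb
      rcases le_total a b with h | h
      · rwa [max_eq_right h]
      · rwa [max_eq_left h]
    refine hmax _ _ hA ?_
    cases hb : Nat.ble x0 y0
    · simp only [cond_false]
      have hlt' : y0 < x0 := by
        by_contra hc
        have h2 : x0 ≤ y0 := not_lt.mp hc
        rw [← Nat.ble_eq] at h2
        rw [h2] at hb
        exact absurd hb (by decide)
      rcases le_total (N.rV (N.mkTab B I) x0) (N.rV (N.mkTab B I) y0) with hle | hle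
      · rw [Nat.sub_eq_zero_of_le hle]
        simpa using hnn
      · have ha0 : (0 : ℝ) ≤ aR y0 := by unfold aR; positivity
        have ha1 : aR y0 < aR x0 := by
          unfold aR
          have : (y0 : ℝ) < x0 := by exact_mod_cast hlt'
          gcongr
        have hsl := bAV.2 (xR I.kz) R hRc (aR y0) (aR x0) y x ha0 ha1 hy0y hx0x hyx hxk
        have hRR := hRm y x hyn hyx.le hxk
        have hD : (0 : ℝ) < aR x0 - aR y0 := by linarith
        have hDe : ((x0 - y0 : ℕ) : ℝ) = 2 ^ 26 * (aR x0 - aR y0) := by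
          rw [Nat.cast_sub hlt'.le]
          unfold aR
          ring
        have hN : ((N.rV (N.mkTab B I) x0 - N.rV (N.mkTab B I) y0 : ℕ) : ℝ) =
            2 ^ 62 * (R (aR x0) - R (aR y0)) := by
          rw [Nat.cast_sub hle, hval x0 hx0k, hval y0 hy0k.le]
          ring
        have hq : (((N.rV (N.mkTab B I) x0 - N.rV (N.mkTab B I) y0) / (x0 - y0) : ℕ) : ℝ) *
            ((x0 - y0 : ℕ) : ℝ) ≤ ((N.rV (N.mkTab B I) x0 - N.rV (N.mkTab B I) y0 : ℕ) : ℝ) := by
          exact_mod_cast Nat.div_mul_le_self _ _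
        rw [hDe, hN] at hq
        generalize ((N.rV (N.mkTab B I) x0 - N.rV (N.mkTab B I) y0) / (x0 - y0) : ℕ) = q at hq
        have hq2 : (q : ℝ) / 2 ^ 36 * (aR x0 - aR y0) ≤ R (aR x0) - R (aR y0) := by
          have e : (q : ℝ) / 2 ^ 36 * (aR x0 - aR y0) =
              (q * (2 ^ 26 * (aR x0 - aR y0))) / 2 ^ 62 := by ring
          rw [e, div_le_iff₀ (by positivity)]
          linarith
        have hxy : 0 < x - y := by linarith
        have h5 : (q : ℝ) / 2 ^ 36 * (x - y) * (aR x0 - aR y0) ≤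
            (rr θ x - rr θ y) * (aR x0 - aR y0) := by
          calc (q : ℝ) / 2 ^ 36 * (x - y) * (aR x0 - aR y0)
              = (q : ℝ) / 2 ^ 36 * (aR x0 - aR y0) * (x - y) := by ring
            _ ≤ (R (aR x0) - R (aR y0)) * (x - y) :=
                mul_le_mul_of_nonneg_right hq2 hxy.le
            _ ≤ (R x - R y) * (aR x0 - aR y0) := hsl
            _ ≤ (rr θ x - rr θ y) * (aR x0 - aR y0) :=
                mul_le_mul_of_nonneg_right hRR hD.le
        exact le_of_mul_le_mul_right h5 hD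
    · simpa using hnn
  · intro x y hy hyx hx
    have h8 : (1 / 8 : ℝ) ≤ xR I.kz := by
      have h1 := xR_le hG h100 (by omega)
      have h2 : xR 100 = 100 / 512 := by
        unfold xR aR
        have : N.xgN 100 = 13107200 := by decide
        rw [this]
        norm_num
      rw [h2] at h1
      linarith
    have := hRρ 0 (by omega) y x (by rw [hx0]; exact hy) hyx (hx.trans h8)
    exact this

end Pool.Agent.Helper58.PT
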